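import Mathlib

namespace Pool.Agent.Results.MP_987215_an.AtZero
open Classical

lemma d3 : deriv (fun x : ℂ => x ^ 3 / 6) = fun x => x ^ 2 / 2 := by
  ext x
  simp
  ring

lemma d2 : deriv (fun x : ℂ => x ^ 2 / 2) = fun x => x := by
  ext x
  simp

theorem result : ∃ (n k : ℕ) (z : Fin n → ℂ) (g : ℂ → ℂ) (p : Polynomial ℂ),
    1 ≤ n ∧ k ≤ n - 1 ∧ (∀ j, ‖z j‖ ≤ 1) ∧ (∀ j, 0 < (z j).re) ∧
    (∀ w : ℂ, w.im ≠ 0 → (Finset.univ.filter (fun j => z j = w)).card =
      (Finset.univ.filter (fun j => z j = starRingEnd ℂ w)).card) ∧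
    (∀ w : ℂ, w.im = 0 → Even (Finset.univ.filter (fun j => z j = w)).card) ∧
    Differentiable ℂ g ∧ (∀ w : ℂ, ‖w‖ ≤ 1 → ‖iteratedDeriv n g w‖ ≤ 1) ∧
    p.degree < (n : WithBot ℕ) ∧
    (∀ j : Fin n, ∀ i : ℕ, i < (Finset.univ.filter (fun l => z l = z j)).card →
      iteratedDeriv i (fun x => p.eval x) (z j) = iteratedDeriv i g (z j)) ∧
    ‖iteratedDeriv k (fun x => ∏ j : Fin n, (x - z j)) 0‖ / (n.factorial : ℝ) <
      ‖iteratedDeriv k g 0 - iteratedDeriv k (fun x => p.eval x) 0‖ := by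
  have hne : (15 / 113 + 112 / 113 * Complex.I : ℂ) ≠ 15 / 113 - 112 / 113 * Complex.I := by
    intro e
    have := congrArg Complex.im e
    norm_num at this
  refine ⟨2, 1, ![15 / 113 + 112 / 113 * Complex.I, 15 / 113 - 112 / 113 * Complex.I],
    fun x => x ^ 3 / 6,
    Polynomial.C (-(11869 / 76614)) * Polynomial.X + Polynomial.C (-5 / 113),
    by norm_num, le_rfl, ?_, ?_, ?_, ?_, by fun_prop, ?_, Polynomial.degree_linear_lt, ?_, ?_⟩
  · intro j
    fin_cases j <;>
    · rw [← sq_le_one_iff₀ (norm_nonneg _), Complex.sq_norm, Complex.normSq_apply]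
      norm_num
  · intro j
    fin_cases j <;> norm_num
  · intro w _
    have e1 : (15 / 113 + 112 / 113 * Complex.I : ℂ) = starRingEnd ℂ w ↔
        (15 / 113 - 112 / 113 * Complex.I : ℂ) = w := by
      simp only [Complex.ext_iff]; norm_num; intro _; constructor <;> intro h <;> linarith
    have e2 : (15 / 113 - 112 / 113 * Complex.I : ℂ) = starRingEnd ℂ w ↔
        (15 / 113 + 112 / 113 * Complex.I : ℂ) = w := by
      simp only [Complex.ext_iff]; norm_num
    simp only [Finset.card_filter, Fin.sum_univ_two, Matrix.cons_val_zero, Matrix.cons_val_one,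
      e1, e2]
    exact add_comm _ _
  · intro w hw
    have e1 : (15 / 113 + 112 / 113 * Complex.I : ℂ) ≠ w := by
      rintro rfl; norm_num at hw
    have e2 : (15 / 113 - 112 / 113 * Complex.I : ℂ) ≠ w := by
      rintro rfl; norm_num at hw
    simp [Finset.card_filter, Fin.sum_univ_two, e1, e2, -Finset.sum_boole]
  · intro w hw
    rwa [iteratedDeriv_succ, iteratedDeriv_one, d3, d2]
  · intro j i hi
    have : i = 0 := by
      fin_cases j <;>
        simp [Finset.card_filter, Fin.sum_univ_two, hne, hne.symm, -Finset.sum_boole] at hi <;>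
        exact hi
    subst this
    fin_cases j <;> simp <;> ring_nf <;> simp [Complex.I_pow_three] <;> ring
  · simp only [iteratedDeriv_one, d3, Polynomial.deriv, Fin.prod_univ_two]
    have : deriv (fun x : ℂ => (x - (15 / 113 + 112 / 113 * Complex.I)) *
        (x - (15 / 113 - 112 / 113 * Complex.I))) 0 = ((-(30 / 113) : ℝ) : ℂ) := by
      rw [deriv_fun_mul (by fun_prop) (by fun_prop)]
      simp
      ring
    simp only [Matrix.cons_val_zero, Matrix.cons_val_one, this, Complex.norm_real]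
    norm_num

end Pool.Agent.Results.MP_987215_an.AtZero
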